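import Mathlib
import Pool.Agent.Q158.EqD.FieldApp
import Pool.Agent.Q158.EqD.TransAff

/-!
# Logarithms of rational numbers at every finite scale

Let `D_N(y)` be the discrepancy of the numbers `y, 2 y, …, N y` modulo one; `y` is rational if and
only if `D_N(y)` does not tend to zero. For a finite set `Y` of real numbers,
`κ, K > 0` and a scale `N` call `y ∈ Y` bad if `D_M(y) > K N ^ (-κ)` for some `M ≥ N`. We prove:

1. For every finite set `Y` of real numbers there are `κ, K > 0` such that for EVERY `N ≥ 1` the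
   logarithms `log q` of the rational numbers `q > 0`, `q ≠ 1` (and `π`) are transcendental over the
   field generated by all bad elements of `Y`.
2. For the monomials `(log q_1) ^ a_1 ⋯ (log q_n) ^ a_n`, `|a_i| ≤ k₀`: for every `N` the group
   generated by the exponent vectors of the bad monomials contains no nonzero multiple of a unit
   vector; for `n = 2` all the bad monomials at the scale `N` lie on one line, which is not an axis.
3. Two logarithms of rational numbers `q₁, q₂ > 1`: for all `d, k` there are `κ, K > 0` such that for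
   every `N` there is a line, not an axis, such that all numbers `y = (log q₁) ^ a (log q₂) ^ b` with
   `|a|, |b| ≤ k` and `(a, b)` outside the line look transcendental at the scale `N`:
   `D_M(P(y)) ≤ K N ^ (-κ)` for ALL `M ≥ N` and all nonconstant `P ∈ ℤ[X]` of degree at most `d` with
   coefficients at most `N ^ κ`.
4. Two logarithms: for every `d` there are `κ, K > 0` such that for every `N` there is an irreducible
   polynomial `f = f_N ∈ ℤ[X, Y]` which contains both variables such that for all nonconstant rational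
   functions `P / Q` of degree at most `d` in each variable and with integer coefficients at most
   `N ^ κ` (and with `Q ≠ 0`, `|P / Q| ≤ N ^ κ` at the point) the number
   `y = P(log q₁, log q₂) / Q(log q₁, log q₂)` satisfies `D_M(y) ≤ K N ^ (-κ)` for ALL `M ≥ N`, unless
   `P / Q` is constant modulo `f_N`, i.e. `f_N` divides `q P - p Q` for some integers `p` and
   `0 < q ≤ 12 N ^ κ`, where `|y - p / q| ≤ 16 N ^ (κ - 1)`. The same holds for the pairs `(π, log q)`.

Proof. If `D_M(y) > δ` then `y` has a rational approximation with a denominator `≤ 12 / δ` and the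
error at most `16 / (δ M)`. Such approximations are inherited by all the elements of the field
generated by the bad numbers. If `log q` is a zero of a polynomial over this field, the
approximations of the coefficients give an integer polynomial with a very small value at `log q`,
which contradicts the transcendence measure of `log q`. In 4 the approximation gives an integer
polynomial `q P - p Q` with a very small value at the point, and so an irreducible factor with a very
small value. By the transcendence measures of the logarithms such a factor contains both variables,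
and two factors which are not proportional have a resultant, a polynomial in one variable, which is
too small at `log q₁`. For 3 let `y₀` be a root of this factor in an algebraic closure of `ℚ(X)`; then
`X ^ a y₀ ^ b` is an algebraic number for all the exceptional exponents.
-/

set_option autoImplicit false

open Real Polynomial

namespace Pool.Agent.Results.MP_60829e_nt.AtEveryScale

noncomputable section

/-- The number of the `n`, `1 ≤ n ≤ N`, for which the fractional part of `n x` lies in `[a, b)`. -/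
def count (x : ℝ) (N : ℕ) (a b : ℝ) : ℕ :=
  ((Finset.Icc 1 N).filter fun n : ℕ => a ≤ Int.fract (n * x) ∧ Int.fract (n * x) < b).card

/-- The discrepancy of `x, 2 x, …, N x` modulo one: the supremum over the intervals
`[a, b) ⊆ [0, 1)` of the difference between the proportion of the `n ≤ N` with `n x` in `[a, b)`
modulo one and the length of the interval. -/
def discrepancy (x : ℝ) (N : ℕ) : ℝ :=
  sSup {d | ∃ a b : ℝ, 0 ≤ a ∧ a ≤ b ∧ b ≤ 1 ∧ d = |(count x N a b : ℝ) / N - (b - a)|}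

/-- `y` is badly distributed at some scale `M ≥ N`. -/
def Bad (κ K : ℝ) (N : ℕ) (y : ℝ) : Prop :=
  ∃ M : ℕ, N ≤ M ∧ K * (N : ℝ) ^ (-κ) < discrepancy y M

/-- The field generated by the bad elements of `Y`. -/
def badField (Y : Finset ℝ) (κ K : ℝ) (N : ℕ) : Subfield ℝ :=
  Subfield.closure {y | y ∈ Y ∧ Bad κ K N y}

/-- The exponent vectors `a` with `|a j| ≤ k₀` for which the monomial `∏ (log q_j) ^ a_j` is bad. -/
def badExponents {n : ℕ} (q : Fin n → ℚ) (k₀ : ℕ) (κ K : ℝ) (N : ℕ) : Set (Fin n → ℤ) :=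
  {a | (∀ j, |a j| ≤ k₀) ∧ Bad κ K N (∏ j, log (q j) ^ a j)}

theorem resultA :
    -- the field generated by the bad elements of a finite set of real numbers
    (∀ Y : Finset ℝ, ∃ κ K : ℝ, 0 < κ ∧ 0 < K ∧ ∀ N : ℕ, 0 < N →
      (∀ q : ℚ, 0 < q → q ≠ 1 → Transcendental (badField Y κ K N) (log q)) ∧
      Transcendental (badField Y κ K N) π) ∧
    -- monomials in logarithms
    (∀ (n : ℕ) (q : Fin n → ℚ), (∀ i, 0 < q i ∧ q i ≠ 1) → ∀ k₀ : ℕ,
      ∃ κ K : ℝ, 0 < κ ∧ 0 < K ∧ ∀ N : ℕ, 0 < N → ∀ (i : Fin n) (m : ℤ), m ≠ 0 →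
        Pi.single i m ∉ AddSubgroup.closure (badExponents q k₀ κ K N)) ∧
    -- two logarithms: at every scale all the bad monomials lie on one line, not an axis
    (∀ (q₁ q₂ : ℚ), 0 < q₁ → q₁ ≠ 1 → 0 < q₂ → q₂ ≠ 1 → ∀ k₀ : ℕ,
      ∃ κ K : ℝ, 0 < κ ∧ 0 < K ∧ ∀ N : ℕ, 0 < N → ∀ a b c d : ℤ,
        |a| ≤ k₀ → |b| ≤ k₀ → |c| ≤ k₀ → |d| ≤ k₀ →
        Bad κ K N (log q₁ ^ a * log q₂ ^ b) → Bad κ K N (log q₁ ^ c * log q₂ ^ d) →
        a * d = b * c ∧ (a = 0 ↔ b = 0)) ∧
    -- the discrepancy tends to zero exactly for the irrational numbers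
    (∀ x : ℝ, Filter.Tendsto (fun N : ℕ => discrepancy x N) Filter.atTop (nhds 0) ↔
      Irrational x) := by
  have hmon : ∀ (n : ℕ) (q : Fin n → ℚ), (∀ i, 0 < q i ∧ q i ≠ 1) → ∀ k₀ : ℕ,
      ∃ κ K : ℝ, 0 < κ ∧ 0 < K ∧ ∀ N : ℕ, 0 < N → ∀ (i : Fin n) (m : ℤ), m ≠ 0 →
        Pi.single i m ∉ AddSubgroup.closure (badExponents q k₀ κ K N) := by
    intro n q hq k₀
    have hlog : ∀ i, log (q i) ≠ 0 := by
      intro i h
      have h1 : (0 : ℝ) < q i := by exact_mod_cast (hq i).1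
      have h2 : (q i : ℝ) ≠ 1 := by exact_mod_cast (hq i).2
      rcases Real.log_eq_zero.1 h with h | h | h
      · linarith
      · exact h2 h
      · linarith
    obtain ⟨κ, K, h1, h2, h3⟩ := Pool.Agent.Q158.EqD.monomials (fun i => log (q i)) hlog k₀
    refine ⟨κ, K, h1, h2, ?_⟩
    intro N hN i m hm hmem
    obtain ⟨F, hF, h4⟩ := h3 N hN
    have h5 := h4 _ hmem
    rw [Pool.Agent.Q158.EqD.prod_single] at h5
    exact hF.1 _ (Pool.Agent.Q158.EqD.measR_log (q i) (hq i).1 (hq i).2)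
      (Pool.Agent.Q158.EqD.alg_of_zpow hm h5)
  refine ⟨?_, hmon, ?_, Pool.Agent.Q158.EqD.tendsto_iff⟩
  · intro Y
    obtain ⟨κ, K, h1, h2, h3⟩ := Pool.Agent.Q158.EqD.bad_field Y
    exact ⟨κ, K, h1, h2, fun N hN =>
      ⟨fun q hq hq1 => (h3 N hN).1 _ (Pool.Agent.Q158.EqD.measR_log q hq hq1),
        (h3 N hN).1 _ Pool.Agent.Q158.EqD.measR_pi⟩⟩
  · intro q₁ q₂ h1 h1' h2 h2' k₀
    obtain ⟨κ, K, hκ, hK, h3⟩ := hmon 2 ![q₁, q₂] (by
      intro i
      fin_cases i
      · exact ⟨h1, h1'⟩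
      · exact ⟨h2, h2'⟩) k₀
    refine ⟨κ, K, hκ, hK, ?_⟩
    intro N hN a b c d ha hb hc hd hab hcd
    have hmem : ∀ a b : ℤ, |a| ≤ k₀ → |b| ≤ k₀ → Bad κ K N (log q₁ ^ a * log q₂ ^ b) →
        ![a, b] ∈ AddSubgroup.closure (badExponents ![q₁, q₂] k₀ κ K N) := by
      intro a b ha hb h
      apply AddSubgroup.subset_closure
      refine ⟨?_, ?_⟩
      · intro j
        fin_cases j
        · exact ha
        · exact hb
      · rw [Fin.prod_univ_two]
        exact h
    have m1 := hmem a b ha hb hab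
    have m2 := hmem c d hc hd hcd
    have e0 : ∀ m : ℤ, ![m, 0] ∈ AddSubgroup.closure (badExponents ![q₁, q₂] k₀ κ K N) → m = 0 := by
      intro m hm
      by_contra hne
      apply h3 N hN 0 m hne
      convert hm using 1
      ext j
      fin_cases j <;> simp
    have e1 : ∀ m : ℤ, ![0, m] ∈ AddSubgroup.closure (badExponents ![q₁, q₂] k₀ κ K N) → m = 0 := by
      intro m hm
      by_contra hne
      apply h3 N hN 1 m hne
      convert hm using 1
      ext j
      fin_cases j <;> simp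
    refine ⟨?_, ?_, ?_⟩
    · have h4 : ![a * d - b * c, 0] ∈ AddSubgroup.closure (badExponents ![q₁, q₂] k₀ κ K N) := by
        have := AddSubgroup.sub_mem _ (AddSubgroup.zsmul_mem _ m1 d) (AddSubgroup.zsmul_mem _ m2 b)
        convert this using 1
        ext j
        fin_cases j
        · simp; ring
        · simp; ring
      have := e0 _ h4
      linarith
    · intro h
      rw [h] at m1
      exact e1 _ m1
    · intro h
      rw [h] at m1
      exact e0 _ m1

/-- The discrepancy of `y` is at most `K N ^ (-κ)` at all the scales `M ≥ N`. -/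
def Uniform (κ K : ℝ) (N : ℕ) (y : ℝ) : Prop :=
  ∀ M : ℕ, N ≤ M → discrepancy y M ≤ K * (N : ℝ) ^ (-κ)

/-- The value `P(x, y)` of a polynomial `P` in `X` and `Y`, considered as a polynomial in `Y` whose
coefficients are polynomials in `X`. -/
def value (x y : ℝ) (P : ℤ[X][X]) : ℝ := P.eval₂ (eval₂RingHom (Int.castRingHom ℝ) x) y

/-- The degree of `P` in each of the variables is at most `d`, the coefficients are at most `H` in
absolute value. -/
def Bounded (d : ℕ) (H : ℝ) (P : ℤ[X][X]) : Prop :=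
  P.natDegree ≤ d ∧ (∀ i, (P.coeff i).natDegree ≤ d) ∧ ∀ i j, |((P.coeff i).coeff j : ℝ)| ≤ H

/-- `P / Q` is a nonconstant rational function in two variables with degrees at most `d` and
coefficients at most `H`, defined at `(x, y)` and with a value of modulus at most `H` there. -/
def Admissible (x y : ℝ) (d : ℕ) (H : ℝ) (P Q : ℤ[X][X]) : Prop :=
  Bounded d H P ∧ Bounded d H Q ∧ value x y Q ≠ 0 ∧ |value x y P| ≤ H * |value x y Q| ∧
    ∀ (q : ℕ) (p : ℤ), 0 < q → C (C (q : ℤ)) * P ≠ C (C p) * Q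

/-- `P / Q` is constant modulo `f`, and the constant is a rational number `p / q` with a denominator
`q ≤ 12 N ^ κ`, which is very close to the value of `P / Q` at `(x, y)`. -/
def ConstantMod (x y : ℝ) (κ : ℝ) (N : ℕ) (f P Q : ℤ[X][X]) : Prop :=
  ∃ (q : ℕ) (p : ℤ), 0 < q ∧ (q : ℝ) ≤ 12 * (N : ℝ) ^ κ ∧
    |value x y P / value x y Q - p / q| ≤ 16 * (N : ℝ) ^ κ / N ∧
    f ∣ C (C (q : ℤ)) * P - C (C p) * Q

/-- At every scale `N` there is an irreducible polynomial `f` which contains both variables such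
that the values at `(x, y)` of all admissible rational functions are well distributed at
all scales `M ≥ N`, unless the function is constant modulo `f`. -/
def RelationAtScales (x y : ℝ) (d : ℕ) (κ K : ℝ) : Prop :=
  ∀ N : ℕ, 0 < N → ∃ f : ℤ[X][X], Irreducible f ∧ 0 < f.natDegree ∧ (∃ i, 0 < (f.coeff i).natDegree) ∧
    ∀ P Q : ℤ[X][X], Admissible x y d ((N : ℝ) ^ κ) P Q →
      Uniform κ K N (value x y P / value x y Q) ∨ ConstantMod x y κ N f P Q

theorem both (x y : ℝ) (hx : Pool.Agent.Q158.EqD.MeasR x) (hy : Pool.Agent.Q158.EqD.MeasR y) (d : ℕ) :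
    ∃ κ K : ℝ, 0 < κ ∧ 0 < K ∧ RelationAtScales x y d κ K := by
  obtain ⟨κ, K, h1, h2, h3⟩ := Pool.Agent.Q158.EqD.minpol2_both x y hx hy d
  refine ⟨κ, K, h1, h2, fun N hN => ?_⟩
  obtain ⟨f, hf1, hf2, hf3, hf4⟩ := h3 N hN
  refine ⟨f, hf1, hf2, ?_, ?_⟩
  · by_contra hcon
    push Not at hcon
    have := (Pool.Agent.Q158.EqD.swap_natDegree_le f 0).2 hcon
    omega
  · intro P Q hPQ
    by_cases hU : Uniform κ K N (value x y P / value x y Q)
    · exact Or.inl hU
    · refine Or.inr (hf4 P Q hPQ ?_)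
      unfold Uniform at hU
      push Not at hU
      exact hU

theorem resultB :
    (∀ q₁ q₂ : ℚ, 0 < q₁ → q₁ ≠ 1 → 0 < q₂ → q₂ ≠ 1 → ∀ d : ℕ,
      ∃ κ K : ℝ, 0 < κ ∧ 0 < K ∧ RelationAtScales (log q₁) (log q₂) d κ K) ∧
    (∀ q : ℚ, 0 < q → q ≠ 1 → ∀ d : ℕ,
      ∃ κ K : ℝ, 0 < κ ∧ 0 < K ∧ RelationAtScales π (log q) d κ K) ∧
    -- the discrepancy tends to zero exactly for the irrational numbers
    (∀ x : ℝ, Filter.Tendsto (fun N : ℕ => discrepancy x N) Filter.atTop (nhds 0) ↔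
      Irrational x) :=
  ⟨fun q₁ q₂ h1 h2 h3 h4 => both _ _ (Pool.Agent.Q158.EqD.measR_log q₁ h1 h2)
      (Pool.Agent.Q158.EqD.measR_log q₂ h3 h4),
    fun q h1 h2 => both _ _ Pool.Agent.Q158.EqD.measR_pi (Pool.Agent.Q158.EqD.measR_log q h1 h2),
    Pool.Agent.Q158.EqD.tendsto_iff⟩

/-- `y` looks transcendental at the scale `N`: the discrepancies of `P(y)` are at most `K N ^ (-κ)`
at all scales `M ≥ N` for all nonconstant integer polynomials of degree at most `d` with
coefficients at most `N ^ κ`. -/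
def LooksTranscendental (d : ℕ) (κ K : ℝ) (N : ℕ) (y : ℝ) : Prop :=
  ∀ P : ℤ[X], 0 < P.natDegree → P.natDegree ≤ d → (∀ i, |(P.coeff i : ℝ)| ≤ (N : ℝ) ^ κ) →
    ∀ M : ℕ, N ≤ M → discrepancy (aeval y P) M ≤ K * (N : ℝ) ^ (-κ)

theorem resultC : ∀ q₁ q₂ : ℚ, 1 < q₁ → 1 < q₂ → ∀ d k : ℕ, ∃ κ K : ℝ, 0 < κ ∧ 0 < K ∧
    ∀ N : ℕ, 0 < N → ∃ a₀ b₀ : ℤ, a₀ ≠ 0 ∧ b₀ ≠ 0 ∧ ∀ a b : ℤ, |a| ≤ k → |b| ≤ k →
      a * b₀ ≠ b * a₀ → LooksTranscendental d κ K N (log q₁ ^ a * log q₂ ^ b) := by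
  intro q₁ q₂ h1 h2 d k
  have l1 : 0 < log (q₁ : ℝ) := log_pos (by exact_mod_cast h1)
  have l2 : 0 < log (q₂ : ℝ) := log_pos (by exact_mod_cast h2)
  obtain ⟨κ, K, h3, h4, h5⟩ := Pool.Agent.Q158.EqD.mono_both (log q₁) (log q₂)
    (Pool.Agent.Q158.EqD.measR_log q₁ (by linarith) h1.ne') l1
    (Pool.Agent.Q158.EqD.measR_log q₂ (by linarith) h2.ne') l2 d k
  refine ⟨κ, K, h3, h4, fun N hN => ?_⟩
  obtain ⟨a₀, b₀, ha, hb, h6⟩ := h5 N hN
  exact ⟨a₀, b₀, ha, hb, fun a b ha' hb' hne P hP0 hPd hPc M hM =>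
    h6 a b ha' hb' hne P hP0 hPd hPc M hM⟩

theorem result :
    -- the field generated by the bad elements of a finite set of real numbers
    (∀ Y : Finset ℝ, ∃ κ K : ℝ, 0 < κ ∧ 0 < K ∧ ∀ N : ℕ, 0 < N →
      (∀ q : ℚ, 0 < q → q ≠ 1 → Transcendental (badField Y κ K N) (log q)) ∧
      Transcendental (badField Y κ K N) π) ∧
    -- monomials in logarithms
    (∀ (n : ℕ) (q : Fin n → ℚ), (∀ i, 0 < q i ∧ q i ≠ 1) → ∀ k₀ : ℕ,
      ∃ κ K : ℝ, 0 < κ ∧ 0 < K ∧ ∀ N : ℕ, 0 < N → ∀ (i : Fin n) (m : ℤ), m ≠ 0 →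
        Pi.single i m ∉ AddSubgroup.closure (badExponents q k₀ κ K N)) ∧
    -- two logarithms: at every scale all the bad monomials lie on one line, not an axis
    (∀ (q₁ q₂ : ℚ), 0 < q₁ → q₁ ≠ 1 → 0 < q₂ → q₂ ≠ 1 → ∀ k₀ : ℕ,
      ∃ κ K : ℝ, 0 < κ ∧ 0 < K ∧ ∀ N : ℕ, 0 < N → ∀ a b c d : ℤ,
        |a| ≤ k₀ → |b| ≤ k₀ → |c| ≤ k₀ → |d| ≤ k₀ →
        Bad κ K N (log q₁ ^ a * log q₂ ^ b) → Bad κ K N (log q₁ ^ c * log q₂ ^ d) →
        a * d = b * c ∧ (a = 0 ↔ b = 0)) ∧
    -- two logarithms: the monomials outside one line look transcendental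
    (∀ q₁ q₂ : ℚ, 1 < q₁ → 1 < q₂ → ∀ d k : ℕ, ∃ κ K : ℝ, 0 < κ ∧ 0 < K ∧
      ∀ N : ℕ, 0 < N → ∃ a₀ b₀ : ℤ, a₀ ≠ 0 ∧ b₀ ≠ 0 ∧ ∀ a b : ℤ, |a| ≤ k → |b| ≤ k →
        a * b₀ ≠ b * a₀ → LooksTranscendental d κ K N (log q₁ ^ a * log q₂ ^ b)) ∧
    -- at every scale the badly distributed rational functions are constant on one curve
    (∀ q₁ q₂ : ℚ, 0 < q₁ → q₁ ≠ 1 → 0 < q₂ → q₂ ≠ 1 → ∀ d : ℕ,
      ∃ κ K : ℝ, 0 < κ ∧ 0 < K ∧ RelationAtScales (log q₁) (log q₂) d κ K) ∧
    (∀ q : ℚ, 0 < q → q ≠ 1 → ∀ d : ℕ,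
      ∃ κ K : ℝ, 0 < κ ∧ 0 < K ∧ RelationAtScales π (log q) d κ K) ∧
    -- the discrepancy tends to zero exactly for the irrational numbers
    (∀ x : ℝ, Filter.Tendsto (fun N : ℕ => discrepancy x N) Filter.atTop (nhds 0) ↔
      Irrational x) :=
  ⟨resultA.1,
    resultA.2.1,
    resultA.2.2.1,
    resultC,
    resultB.1,
    resultB.2.1,
    resultB.2.2⟩

end

end Pool.Agent.Results.MP_60829e_nt.AtEveryScale
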