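import Pool.Agent.Q67.KT.Branch

set_option autoImplicit false

/-!
# MP_850839: the tube inequality for all families, with a loss given by the branching numbers of the
positions

Let `n = d + 1 ≥ 2` and `q > n/(n-1)`.  Take any family of `δ`-tubes with `δ`-separated orientations.
Divide it into `L` colours and take, for each colour, arbitrary orthonormal coordinates in which the
directions have last coordinate at least `c`.  In these coordinates a tube has slopes `v_0, …, v_{d-1}`,
and its axis meets the horizontal hyperplane at the next integer height below the centre at a point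
with coordinates `p_0, …, p_{d-1}`.  The `j`-th branching number is the largest number of cells of
length `δ` for the coordinate `p_j` among tubes (of the same colour and in the same unit window of
heights) whose slopes `v_0, …, v_j` are in the same cells of length `δ/(d+1)` and whose positions
`p_0, …, p_{j-1}` are in the same cells of length `δ`.

Then the inequality of the problem holds in the full range, without any further loss in `δ` and with
the conjectured dependence on the number of the tubes, up to the factor
(`L` times the product of the branching numbers)^(1/(q(n-1))).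

For `n = 3` only the first branching number matters: it is the number of parallel slabs of width `δ`
(parallel to the second coordinate direction) in which the tubes of a given first slope are.  If for
each `j` the coordinate `p_j` is, up to `O(δ)`, an arbitrary function of the slopes `v_0, …, v_j`
rounded to multiples of `δ/n`, then the
factor is bounded and there is no loss.
-/

open MeasureTheory

namespace Pool.Agent.Results.MP_850839_an.BranchingNumbers

/-- The `δ`-tube with centre `a` and direction `e` (a unit vector): the closed cylinder of length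
`1` and radius `δ` around the segment with centre `a` and direction `e`. -/
def tube {n : ℕ} (δ : ℝ) (a e : EuclideanSpace ℝ (Fin n)) : Set (EuclideanSpace ℝ (Fin n)) :=
  {y | |inner ℝ (y - a) e| ≤ 1 / 2 ∧ ‖(y - a) - (inner ℝ (y - a) e) • e‖ ≤ δ}

/-- Orthonormal bases of `ℝ^(d+1)`; the last vector is called vertical. -/
abbrev Basis (d : ℕ) : Type := OrthonormalBasis (Fin (d + 1)) ℝ (EuclideanSpace ℝ (Fin (d + 1)))

/-- The `j`-th slope of the direction `e` in the basis `u`. -/
noncomputable def slope {d : ℕ} (u : Basis d) (e : EuclideanSpace ℝ (Fin (d + 1))) (j : Fin d) : ℝ :=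
  inner ℝ e (u j.castSucc) / inner ℝ e (u (Fin.last d))

/-- The integer part of the height of `a` in the basis `u`. -/
noncomputable def window {d : ℕ} (u : Basis d) (a : EuclideanSpace ℝ (Fin (d + 1))) : ℤ :=
  ⌊(inner ℝ a (u (Fin.last d)) : ℝ)⌋

/-- The `j`-th coordinate in the basis `u` of the point of height `window u a` of the line through `a`
with direction `e`. -/
noncomputable def position {d : ℕ} (u : Basis d) (a e : EuclideanSpace ℝ (Fin (d + 1)))
    (j : Fin d) : ℝ :=
  inner ℝ a (u j.castSucc) - (inner ℝ a (u (Fin.last d)) - window u a) * slope u e j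

/-- The `j`-th branching number at the tube `i`: the number of cells of length `δ` met by the `j`-th
position coordinates of the tubes of the same colour and window whose slopes number `0, …, j` are in
the same cells of length `δ/(d+1)`, and whose positions number `0, …, j-1` are in the same cells of
length `δ`, as those of the tube `i`. -/
noncomputable def branching {ι : Type} {d L : ℕ} (δ : ℝ) (χ : ι → Fin L) (u : Fin L → Basis d)
    (a e : ι → EuclideanSpace ℝ (Fin (d + 1))) (i : ι) (j : Fin d) : ℕ :=
  Set.ncard {x : ℤ | ∃ i', (χ i' = χ i ∧ window (u (χ i')) (a i') = window (u (χ i)) (a i)) ∧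
    (∀ l ≤ j, ⌊slope (u (χ i')) (e i') l / (δ / (d + 1))⌋ =
      ⌊slope (u (χ i)) (e i) l / (δ / (d + 1))⌋) ∧
    (∀ l < j, ⌊position (u (χ i')) (a i') (e i') l / δ⌋ =
      ⌊position (u (χ i)) (a i) (e i) l / δ⌋) ∧
    ⌊position (u (χ i')) (a i') (e i') j / δ⌋ = x}

/-- **The tube inequality for all families, in the full range `q > n/(n-1)`, `n = d + 1`, with the
conjectured dependence on the number of tubes and with a loss given by the branching numbers of the
positions.** -/
theorem result (d : ℕ) (hd : 1 ≤ d) (q : ℝ) (hq : ((d : ℝ) + 1) / d < q) (c : ℝ) (hc : 0 < c)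
    (hc1 : c ≤ 1) :
    ∃ C : ℝ, 0 < C ∧ ∀ δ : ℝ, 0 < δ → δ < 1 →
      ∀ (ι : Type) [Fintype ι] (a e : ι → EuclideanSpace ℝ (Fin (d + 1))), (∀ i, ‖e i‖ = 1) →
      (∀ i i', i ≠ i' → δ ≤ ‖e i - e i'‖) →
      ∀ (L : ℕ) (χ : ι → Fin L) (u : Fin L → Basis d),
        (∀ i, c ≤ inner ℝ (e i) (u (χ i) (Fin.last d))) →
        ∀ b : Fin d → ℕ, (∀ i j, branching δ χ u a e i j ≤ b j) →
        eLpNorm (fun x => ∑ i, (tube δ (a i) (e i)).indicator (fun _ => (1 : ℝ)) x)
            (ENNReal.ofReal q) volume ≤
          ENNReal.ofReal (C * ((L : ℝ) * ∏ j, (b j : ℝ)) ^ (1 / (q * d)) *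
            δ ^ ((d : ℝ) / q) * (Fintype.card ι : ℝ) ^ (1 - 1 / (q * d))) := by
  have hd0 : (0 : ℝ) < d := by exact_mod_cast hd
  have hq' : 1 + 1 / (d : ℝ) < q := by
    refine lt_of_eq_of_lt ?_ hq
    field_simp
  have h1d : 0 < 1 / (d : ℝ) := by positivity
  have hq1 : 1 < q := by linarith
  have hγ : 1 < d * (q - 1) := by
    have h2 : 1 / (d : ℝ) < q - 1 := by linarith
    rwa [div_lt_iff₀ hd0, mul_comm] at h2
  have hCc := Q67.KT.Cc_pos hγ
  have hvb := Pool.Agent.TH705.RR.vb_pos (d + 1)
  have hc0 : 0 < c ^ 2 * (1 / ((d : ℝ) + 1)) / 6 := by positivity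
  refine ⟨(Q67.KT.Cc (d * (q - 1)) * (2 ^ (d + 1) * Pool.Agent.TH705.RR.vb (d + 1) *
        (10 * ((1 + 3 + 1) / (c ^ 2 * (1 / ((d : ℝ) + 1)) / 6))))) ^ (1 / q) *
        5 ^ (1 / (q * (d : ℝ))), by positivity, ?_⟩
  intro δ hδ hδ1 ι _ a e he hsep L χ u hup b hb
  refine (Q67.KT.branch hd hq' hδ hδ1 hc hc1 a e he hsep χ u hup b ?_).trans
    (ENNReal.ofReal_le_ofReal (le_of_eq ?_))
  · intro i j
    refine le_trans (le_of_eq ?_) (hb i j)
    unfold branching Q67.KT.Br
    have e1 : 1 / ((d : ℝ) + 1) * δ = δ / (d + 1) := by ring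
    rw [e1]
    congr 1
    ext x
    constructor
    · rintro ⟨i', h1, h2, h3, h4⟩
      exact ⟨i', Prod.ext_iff.1 h1, h2, h3, h4⟩
    · rintro ⟨i', h1, h2, h3, h4⟩
      exact ⟨i', Prod.ext_iff.2 h1, h2, h3, h4⟩
  · have e2 : ((L * 5 * ∏ j, b j : ℕ) : ℝ) = 5 * ((L : ℝ) * ∏ j, (b j : ℝ)) := by push_cast; ring
    rw [e2, Real.mul_rpow (by norm_num) (mul_nonneg (by positivity)
      (Finset.prod_nonneg fun j _ => by positivity))]
    ring

end Pool.Agent.Results.MP_850839_an.BranchingNumbers
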